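import Pool.Agent.L7h48.SGP.Stm
import Pool.Agent.L7h22.SG.D2

set_option autoImplicit false

/-!
# Project SGP, part MK: Minkowski's bound for `ℚ(√-D)`
-/

namespace Pool.Agent.L7h37.SGP

open Pool.Agent.L7h48.SGP
open Pool.Agent.Y715.Gi (QB KK GK i₀_mem)
open Pool.Agent.L7h22.SG.D2 (finrank_KK)
open Polynomial NumberField

section

variable {K : Type} [Field K] [NumberField K] {t : K} {D : ℕ}

lemma t_irr (hD : D ≠ 0) (ht : t ^ 2 = -(D : K)) (q : ℚ) : t ≠ algebraMap ℚ K q := by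
  intro h
  rw [h, ← map_pow] at ht
  have h1 : algebraMap ℚ K (q ^ 2) = algebraMap ℚ K (-(D : ℚ)) := by
    rw [ht, map_neg, map_natCast]
  have h2 := (algebraMap ℚ K).injective h1
  have h3 : (0 : ℚ) < D := by exact_mod_cast Nat.pos_of_ne_zero hD
  nlinarith [sq_nonneg q]

lemma li (hD : D ≠ 0) (ht : t ^ 2 = -(D : K)) : LinearIndependent ℚ ![(1 : K), t] := by
  rw [LinearIndependent.pair_iff]
  intro a b h
  have hb : b = 0 := by
    by_contra hb
    apply t_irr hD ht (-(a / b))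
    rw [Algebra.smul_def, Algebra.smul_def, mul_one] at h
    have hb2 : algebraMap ℚ K b ≠ 0 := by
      intro h2
      exact hb ((algebraMap ℚ K).injective (by rw [h2, map_zero]))
    rw [map_neg, map_div₀]
    field_simp
    linear_combination h
  subst hb
  refine ⟨?_, rfl⟩
  rw [zero_smul, add_zero, Algebra.smul_def, mul_one] at h
  exact (algebraMap ℚ K).injective (by rw [h, map_zero])

/-- the basis `1, t` -/
noncomputable def bas (hD : D ≠ 0) (ht : t ^ 2 = -(D : K)) (hK : Module.finrank ℚ K = 2) :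
    Module.Basis (Fin 2) ℚ K :=
  basisOfLinearIndependentOfCardEqFinrank (li hD ht) (by rw [hK, Fintype.card_fin])

lemma bas_coe (hD : D ≠ 0) (ht : t ^ 2 = -(D : K)) (hK : Module.finrank ℚ K = 2) :
    (bas hD ht hK : Fin 2 → K) = ![(1 : K), t] :=
  coe_basisOfLinearIndependentOfCardEqFinrank _ _

lemma trace_t (hD : D ≠ 0) (ht : t ^ 2 = -(D : K)) (hK : Module.finrank ℚ K = 2) :
    Algebra.trace ℚ K t = 0 := by
  have h0 : (bas hD ht hK) 0 = 1 := by rw [bas_coe]; rfl
  have h1 : (bas hD ht hK) 1 = t := by rw [bas_coe]; rfl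
  rw [Algebra.trace_eq_matrix_trace (bas hD ht hK), Matrix.trace_fin_two,
    Algebra.leftMulMatrix_eq_repr_mul, Algebra.leftMulMatrix_eq_repr_mul, h0, h1, mul_one]
  have h2 : (bas hD ht hK).repr t 0 = 0 := by
    have h5 : (bas hD ht hK).repr ((bas hD ht hK) 1) 0 = (bas hD ht hK).repr t 0 :=
      congrArg (fun z => (bas hD ht hK).repr z 0) h1
    rw [← h5, Module.Basis.repr_self]
    simp
  have h3 : (bas hD ht hK).repr (t * t) 1 = 0 := by
    have h4 : t * t = (-(D : ℚ)) • (bas hD ht hK) 0 := by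
      rw [h0, Algebra.smul_def, mul_one, map_neg, map_natCast, ← pow_two, ht]
    rw [h4, map_smul, Module.Basis.repr_self]
    simp
  rw [h2, h3, add_zero]

lemma discr_t (hD : D ≠ 0) (ht : t ^ 2 = -(D : K)) (hK : Module.finrank ℚ K = 2) :
    Algebra.discr ℚ ![(1 : K), t] = -(4 * D : ℚ) := by
  have h1 : Algebra.trace ℚ K 1 = 2 := by
    have h3 := Algebra.trace_algebraMap (S := K) (1 : ℚ)
    rw [map_one, hK] at h3
    rw [h3]
    norm_num
  have h2 : Algebra.trace ℚ K (t * t) = -(2 * D : ℚ) := by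
    rw [← pow_two, ht]
    have h3 : (-(D : K)) = algebraMap ℚ K (-(D : ℚ)) := by rw [map_neg, map_natCast]
    rw [h3, Algebra.trace_algebraMap, hK]
    simp
  rw [Algebra.discr_def, Matrix.det_fin_two]
  simp only [Algebra.traceMatrix_apply, Algebra.traceForm_apply, Matrix.cons_val_zero,
    Matrix.cons_val_one, one_mul, mul_one, h1, h2, trace_t hD ht hK]
  ring

lemma discr_le (hD : D ≠ 0) (ht : t ^ 2 = -(D : K)) (hK : Module.finrank ℚ K = 2) (w : 𝓞 K)
    (hw : t = 2 * (w : K) - 1) : |discr K| ≤ D := by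
  classical
  have hcard : Fintype.card (Module.Free.ChooseBasisIndex ℤ (𝓞 K)) = 2 := by
    rw [← Module.finrank_eq_card_basis (integralBasis K), hK]
  let e : Module.Free.ChooseBasisIndex ℤ (𝓞 K) ≃ Fin 2 := Fintype.equivFinOfCardEq hcard
  let b := (integralBasis K).reindex e
  have hint : ∀ (x : 𝓞 K) (i : Fin 2), ∃ n : ℤ, b.repr (x : K) i = n := by
    intro x i
    refine ⟨(RingOfIntegers.basis K).repr x (e.symm i), ?_⟩
    rw [Module.Basis.repr_reindex_apply]
    exact integralBasis_repr_apply K x _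
  let c : Fin 2 → K := ![(1 : K), t]
  let P : Matrix (Fin 2) (Fin 2) ℚ := fun i j => b.repr (c i) j
  have hP : Matrix.mulVec (P.map (algebraMap ℚ K)) b = c := by
    funext i
    rw [Matrix.mulVec, dotProduct]
    conv_rhs => rw [← b.sum_repr (c i)]
    refine Finset.sum_congr rfl fun j _ => ?_
    rw [Algebra.smul_def]
    rfl
  have h1 := Algebra.discr_of_matrix_mulVec (b : Fin 2 → K) P
  rw [hP] at h1
  have h2 : Algebra.discr ℚ (b : Fin 2 → K) = discr K := by
    rw [coe_discr, ← Algebra.discr_reindex ℚ (integralBasis K) e]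
    congr 1
    funext i
    exact (integralBasis K).reindex_apply e i
  obtain ⟨a0, ha0⟩ := hint 1 0
  obtain ⟨a1, ha1⟩ := hint 1 1
  obtain ⟨w0, hw0⟩ := hint w 0
  obtain ⟨w1, hw1⟩ := hint w 1
  rw [show ((1 : 𝓞 K) : K) = 1 from rfl] at ha0 ha1
  have ht0 : b.repr t 0 = 2 * w0 - a0 := by
    rw [hw, two_mul, map_sub, map_add, Finsupp.sub_apply, Finsupp.add_apply, hw0, ha0]
    ring
  have ht1 : b.repr t 1 = 2 * w1 - a1 := by
    rw [hw, two_mul, map_sub, map_add, Finsupp.sub_apply, Finsupp.add_apply, hw1, ha1]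
    ring
  have hdet : P.det = 2 * ((a0 * w1 - a1 * w0 : ℤ) : ℚ) := by
    rw [Matrix.det_fin_two]
    change b.repr (1 : K) 0 * b.repr t 1 - b.repr (1 : K) 1 * b.repr t 0 = _
    rw [ha0, ha1, ht0, ht1]
    push_cast
    ring
  rw [h2, discr_t hD ht hK, hdet] at h1
  set n : ℤ := a0 * w1 - a1 * w0
  have h3 : (-(D : ℤ)) = n ^ 2 * discr K := by
    have h4 : (-(4 * D : ℚ)) = 4 * ((n ^ 2 * discr K : ℤ) : ℚ) := by
      rw [h1]
      push_cast
      ring
    have h5 : ((-(D : ℤ) : ℤ) : ℚ) = ((n ^ 2 * discr K : ℤ) : ℚ) := by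
      push_cast at h4 ⊢
      linarith
    exact_mod_cast h5
  have hn : n ≠ 0 := by
    intro h
    rw [h] at h3
    simp at h3
    exact hD h3
  have h6 : |(-(D : ℤ))| = n ^ 2 * |discr K| := by
    rw [h3, abs_mul, abs_of_nonneg (sq_nonneg n)]
  rw [abs_neg, Nat.abs_cast] at h6
  rw [h6]
  have h7 : 1 ≤ n ^ 2 := by
    have := sq_nonneg n
    have h8 : n ^ 2 ≠ 0 := pow_ne_zero 2 hn
    omega
  nlinarith [abs_nonneg (discr K)]

lemma nrReal (hD : D ≠ 0) (ht : t ^ 2 = -(D : K)) : InfinitePlace.nrRealPlaces K = 0 := by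
  classical
  have hE : IsEmpty {w : InfinitePlace K // w.IsReal} := by
    refine ⟨fun w => ?_⟩
    have h1 : (InfinitePlace.embedding_of_isReal w.2 t) ^ 2 = -(D : ℝ) := by
      rw [← map_pow, ht, map_neg, map_natCast]
    have h3 : (0 : ℝ) < D := by exact_mod_cast Nat.pos_of_ne_zero hD
    nlinarith [sq_nonneg (InfinitePlace.embedding_of_isReal w.2 t)]
  unfold InfinitePlace.nrRealPlaces
  rw [Fintype.card_eq_zero_iff]
  exact hE

lemma nrComplex (hD : D ≠ 0) (ht : t ^ 2 = -(D : K)) (hK : Module.finrank ℚ K = 2) :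
    InfinitePlace.nrComplexPlaces K = 1 := by
  have h := InfinitePlace.card_add_two_mul_card_eq_rank K
  rw [nrReal hD ht, hK] at h
  omega

lemma mink (hD : D ≠ 0) (ht : t ^ 2 = -(D : K)) (hK : Module.finrank ℚ K = 2) (w : 𝓞 K)
    (hw : t = 2 * (w : K) - 1) (C : ClassGroup (𝓞 K)) :
    ∃ I : nonZeroDivisors (Ideal (𝓞 K)), ClassGroup.mk0 I = C ∧
      (Ideal.absNorm (I : Ideal (𝓞 K)) : ℝ) ≤ 2 / Real.pi * √(D : ℝ) := by
  obtain ⟨I, hI, h⟩ := NumberField.exists_ideal_in_class_of_norm_le C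
  refine ⟨I, hI, h.trans ?_⟩
  rw [nrComplex hD ht hK, hK]
  have h1 : √|((discr K : ℤ) : ℝ)| ≤ √(D : ℝ) := by
    apply Real.sqrt_le_sqrt
    exact_mod_cast discr_le hD ht hK w hw
  have hpi := Real.pi_pos
  calc _ = 2 / Real.pi * √|((discr K : ℤ) : ℝ)| := by
        norm_num [Nat.factorial]
        ring
    _ ≤ _ := mul_le_mul_of_nonneg_left h1 (by positivity)

end

theorem s_MK : S_MK := by
  intro D hsq hD4 s hs J
  have hD : D ≠ 0 := by
    rintro rfl
    omega
  have ht : (⟨s, i₀_mem⟩ : KK s) ^ 2 = -(D : KK s) := by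
    apply Subtype.ext
    push_cast
    exact hs
  -- the integral element `(1 + s) / 2`
  let t : KK s := ⟨s, i₀_mem⟩
  have hw : IsIntegral ℤ ((1 + t) / 2) := by
    obtain ⟨q, hq⟩ : ∃ q : ℕ, D + 1 = 4 * q := ⟨(D + 1) / 4, by omega⟩
    refine ⟨X ^ 2 - X + C (q : ℤ), by monicity!, ?_⟩
    have h1 : (D : KK s) + 1 = 4 * (q : KK s) := by exact_mod_cast congrArg (Nat.cast : ℕ → KK s) hq
    simp only [eval₂_add, eval₂_sub, eval₂_pow, eval₂_X, eval₂_C]
    push_cast
    have h2 : t ^ 2 = -(D : KK s) := ht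
    field_simp
    linear_combination h2 - h1
  refine mink hD ht (finrank_KK hs hD) ⟨(1 + t) / 2, hw⟩ ?_ J
  change t = 2 * ((1 + t) / 2) - 1
  ring

end Pool.Agent.L7h37.SGP
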