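import Pool.Agent.L7h48.SGP.Stm

set_option autoImplicit false

/-!
# Project SGP, part R3: the conditions at `3`
-/

namespace Pool.Agent.L7h37.SGP

open Pool.Agent.L7h48.SGP

/-- the conclusion of `S_R3` -/
def C3 (j m : ℕ) (x y : ℤ) : Prop :=
    (j = 0 ∧ m % 3 = 1 ∧ (9 : ℤ) ∣ y) ∨ (j = 0 ∧ m % 3 = 2 ∧ (9 : ℤ) ∣ x ∧ ¬ (3 : ℤ) ∣ y) ∨
    (j = 0 ∧ m % 3 = 0 ∧ ((9 : ℤ) ∣ x - 1 ∨ (9 : ℤ) ∣ x + 1) ∧ ¬ (3 : ℤ) ∣ y) ∨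
    (j = 1 ∧ m % 3 = 1 ∧ ((9 : ℤ) ∣ x - 4 ∨ (9 : ℤ) ∣ x + 4) ∧ ¬ (3 : ℤ) ∣ y) ∨
    (j = 1 ∧ m % 3 = 2 ∧ ((9 : ℤ) ∣ x - 2 ∨ (9 : ℤ) ∣ x + 2) ∧ ¬ (3 : ℤ) ∣ y) ∨
    (j = 1 ∧ m % 3 = 0 ∧ ((9 : ℤ) ∣ x - 1 ∨ (9 : ℤ) ∣ x + 1) ∧ ¬ (3 : ℤ) ∣ y) ∨
    (j = 1 ∧ m % 3 = 0 ∧ ((27 : ℤ) ∣ x - 3 ∨ (27 : ℤ) ∣ x + 3) ∧ (3 : ℤ) ∣ y ∧ ¬ (9 : ℤ) ∣ y)

/-- cubes modulo `9` and `27` -/
lemma cube_mod (u : ℤ) : (u % 3 = 0 ∧ ∃ k, u ^ 3 = 27 * k) ∨ (u % 3 = 1 ∧ ∃ k, u ^ 3 = 9 * k + 1) ∨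
    (u % 3 = 2 ∧ ∃ k, u ^ 3 = 9 * k - 1) := by
  have h := Int.emod_add_mul_ediv u 3
  set a := u / 3
  have h3 : u % 3 = 0 ∨ u % 3 = 1 ∨ u % 3 = 2 := by omega
  rcases h3 with h3 | h3 | h3
  · exact Or.inl ⟨h3, a ^ 3, by rw [← h, h3]; ring⟩
  · exact Or.inr (Or.inl ⟨h3, 3 * a ^ 3 + 3 * a ^ 2 + a, by rw [← h, h3]; ring⟩)
  · exact Or.inr (Or.inr ⟨h3, 3 * a ^ 3 + 6 * a ^ 2 + 4 * a + 1, by rw [← h, h3]; ring⟩)

/-- products modulo `3` -/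
lemma mul_mod3 (u w : ℤ) : (u * w) % 3 = ((u % 3) * (w % 3)) % 3 := Int.mul_emod u w 3

lemma three_dvd {y t : ℤ} (ht : t % 3 ≠ 0) (h : (3 : ℤ) ∣ y * t) : (3 : ℤ) ∣ y := by
  rcases (Int.prime_three).dvd_or_dvd h with h | h
  · exact h
  · exact absurd (Int.emod_eq_zero_of_dvd h) ht

lemma nine_dvd {y t : ℤ} (ht : t % 3 ≠ 0) (h : (9 : ℤ) ∣ y * t) : (9 : ℤ) ∣ y := by
  obtain ⟨k, hk⟩ := three_dvd ht (Dvd.dvd.trans (by norm_num : (3 : ℤ) ∣ 9) h)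
  subst hk
  have h2 : (3 : ℤ) ∣ k * t := by
    obtain ⟨l, hl⟩ := h
    exact ⟨l, by linarith [hl, mul_assoc 3 k t]⟩
  obtain ⟨l, hl⟩ := three_dvd ht h2
  exact ⟨l, by rw [hl]; ring⟩

/-- the integral version -/
lemma core (j m : ℕ) (x y u w t : ℤ) (hj : j ≤ 1) (ht : t % 3 ≠ 0) (hx : (27 : ℤ) ∣ x - (u ^ 3 + 3 ^ j * w ^ 3))
    (hy : (27 : ℤ) ∣ y * t - (u ^ 3 - 3 ^ j * w ^ 3)) (hm : (27 : ℤ) ∣ m - u * w)
    (h : ¬ (u % 3 = 0 ∧ w % 3 = 0)) : C3 j m x y := by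
  obtain ⟨a, ha⟩ := hx
  obtain ⟨b, hb⟩ := hy
  obtain ⟨c, hc⟩ := hm
  have hm3 : (m : ℤ) % 3 = ((u % 3) * (w % 3)) % 3 := by
    rw [← mul_mod3]
    omega
  have e3 : (3 : ℤ) ∣ y → ∃ k, y * t = 3 * k := fun h => h.mul_right t
  have e9 : (9 : ℤ) ∣ y → ∃ k, y * t = 9 * k := fun h => h.mul_right t
  have f3 : ∀ k, y * t = 3 * k → (3 : ℤ) ∣ y := fun k h => three_dvd ht ⟨k, h⟩
  have f9 : ∀ k, y * t = 9 * k → (9 : ℤ) ∣ y := fun k h => nine_dvd ht ⟨k, h⟩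
  unfold C3
  have hj2 : j = 0 ∨ j = 1 := by omega
  rcases hj2 with rfl | rfl <;> rcases cube_mod u with ⟨hu, k, hk⟩ | ⟨hu, k, hk⟩ | ⟨hu, k, hk⟩ <;>
    rcases cube_mod w with ⟨hw, l, hl⟩ | ⟨hw, l, hl⟩ | ⟨hw, l, hl⟩ <;> rw [hu, hw] at hm3 <;>
    rw [hk, hl] at ha hb
  · exact absurd ⟨hu, hw⟩ h
  · refine Or.inr (Or.inr (Or.inl ⟨rfl, by omega, by omega, fun h3 => ?_⟩))
    obtain ⟨n, hn⟩ := e3 h3
    omega
  · refine Or.inr (Or.inr (Or.inl ⟨rfl, by omega, by omega, fun h3 => ?_⟩))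
    obtain ⟨n, hn⟩ := e3 h3
    omega
  · refine Or.inr (Or.inr (Or.inl ⟨rfl, by omega, by omega, fun h3 => ?_⟩))
    obtain ⟨n, hn⟩ := e3 h3
    omega
  · exact Or.inl ⟨rfl, by omega, f9 (3 * b + (k - l)) (by linarith)⟩
  · refine Or.inr (Or.inl ⟨rfl, by omega, by omega, fun h3 => ?_⟩)
    obtain ⟨n, hn⟩ := e3 h3
    omega
  · refine Or.inr (Or.inr (Or.inl ⟨rfl, by omega, by omega, fun h3 => ?_⟩))
    obtain ⟨n, hn⟩ := e3 h3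
    omega
  · refine Or.inr (Or.inl ⟨rfl, by omega, by omega, fun h3 => ?_⟩)
    obtain ⟨n, hn⟩ := e3 h3
    omega
  · exact Or.inl ⟨rfl, by omega, f9 (3 * b + (k - l)) (by linarith)⟩
  · exact absurd ⟨hu, hw⟩ h
  · refine Or.inr (Or.inr (Or.inr (Or.inr (Or.inr (Or.inr ⟨rfl, by omega, by omega, ?_, fun h3 => ?_⟩)))))
    · exact f3 (9 * b + 9 * k - (9 * l + 1)) (by linarith)
    · obtain ⟨n, hn⟩ := e9 h3
      omega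
  · refine Or.inr (Or.inr (Or.inr (Or.inr (Or.inr (Or.inr ⟨rfl, by omega, by omega, ?_, fun h3 => ?_⟩)))))
    · exact f3 (9 * b + 9 * k - (9 * l - 1)) (by linarith)
    · obtain ⟨n, hn⟩ := e9 h3
      omega
  · refine Or.inr (Or.inr (Or.inr (Or.inr (Or.inr (Or.inl ⟨rfl, by omega, by omega, fun h3 => ?_⟩)))))
    obtain ⟨n, hn⟩ := e3 h3
    omega
  · refine Or.inr (Or.inr (Or.inr (Or.inl ⟨rfl, by omega, by omega, fun h3 => ?_⟩)))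
    obtain ⟨n, hn⟩ := e3 h3
    omega
  · refine Or.inr (Or.inr (Or.inr (Or.inr (Or.inl ⟨rfl, by omega, by omega, fun h3 => ?_⟩))))
    obtain ⟨n, hn⟩ := e3 h3
    omega
  · refine Or.inr (Or.inr (Or.inr (Or.inr (Or.inr (Or.inl ⟨rfl, by omega, by omega, fun h3 => ?_⟩)))))
    obtain ⟨n, hn⟩ := e3 h3
    omega
  · refine Or.inr (Or.inr (Or.inr (Or.inr (Or.inl ⟨rfl, by omega, by omega, fun h3 => ?_⟩))))
    obtain ⟨n, hn⟩ := e3 h3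
    omega
  · refine Or.inr (Or.inr (Or.inr (Or.inl ⟨rfl, by omega, by omega, fun h3 => ?_⟩)))
    obtain ⟨n, hn⟩ := e3 h3
    omega

/-- approximation by integers -/
lemma appr (U : ℤ_[3]) : ∃ u : ℤ, PadicInt.toZModPow 3 U = (u : ZMod (3 ^ 3)) ∧
    (u % 3 = 0 → ‖(U : ℚ_[3])‖ ≤ 1 / 3) := by
  refine ⟨((PadicInt.toZModPow 3 U).val : ℤ), ?_, fun h => ?_⟩
  · push_cast
    rw [ZMod.natCast_zmod_val]
  · have h1 : U - ((PadicInt.toZModPow 3 U).val : ℤ_[3]) ∈ RingHom.ker (PadicInt.toZModPow (p := 3) 3) := by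
      rw [RingHom.mem_ker, map_sub, map_natCast, ZMod.natCast_zmod_val, sub_self]
    rw [PadicInt.ker_toZModPow, Ideal.mem_span_singleton] at h1
    obtain ⟨c, hc⟩ := h1
    obtain ⟨d, hd⟩ : 3 ∣ (PadicInt.toZModPow 3 U).val := by omega
    have h2 : U ∈ (Ideal.span {((3 : ℕ) : ℤ_[3]) ^ 1} : Ideal ℤ_[3]) := by
      rw [Ideal.mem_span_singleton]
      refine ⟨9 * c + d, ?_⟩
      rw [hd] at hc
      push_cast at hc ⊢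
      linear_combination hc
    have h3 := (PadicInt.norm_le_pow_iff_mem_span_pow U 1).2 h2
    rw [← PadicInt.norm_def]
    refine h3.trans (le_of_eq ?_)
    norm_num

lemma dvd27 {z : ℤ} (h : (z : ZMod (3 ^ 3)) = 0) : (27 : ℤ) ∣ z := by
  have := (ZMod.intCast_zmod_eq_zero_iff_dvd z (3 ^ 3)).1 h
  norm_num at this
  exact this

theorem s_R3 : S_R3 := by
  intro D j m x y t v hj hm hD ht heq hv hn
  change C3 j m x y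
  have h3 : ‖(3 : ℚ_[3])‖ = 3⁻¹ := by
    have := Padic.norm_p (p := 3)
    exact_mod_cast this
  have h2 : ‖(2 : ℚ_[3])‖ = 1 := by
    have := (Padic.norm_natCast_eq_one_iff (p := 3) (n := 2)).2 (by decide)
    exact_mod_cast this
  have htn : ‖t‖ ≤ 1 := by
    have h1 : ‖t‖ ^ 2 ≤ 1 := by
      rw [← norm_pow, ht, norm_neg]
      exact_mod_cast Padic.norm_int_le_one (p := 3) (D : ℤ)
    by_contra hcon
    push Not at hcon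
    nlinarith [norm_nonneg t]
  set α : ℚ_[3] := ((x : ℚ_[3]) + y * t) / 2 with hα
  set β : ℚ_[3] := ((x : ℚ_[3]) - y * t) / 2 with hβ
  have hmul : α * β = 3 ^ j * (m : ℚ_[3]) ^ 3 := by
    have h4 : ((x : ℚ_[3])) ^ 2 + D * (y : ℚ_[3]) ^ 2 = 4 * (3 ^ j * (m : ℚ_[3]) ^ 3) := by
      exact_mod_cast congrArg (Int.cast : ℤ → ℚ_[3]) heq
    rw [hα, hβ]
    linear_combination (1 / 4) * h4 - (y : ℚ_[3]) ^ 2 / 4 * ht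
  have hx1 : ‖(x : ℚ_[3])‖ ≤ 1 := Padic.norm_int_le_one x
  have hy1 : ‖(y : ℚ_[3]) * t‖ ≤ 1 := by
    rw [norm_mul]
    exact mul_le_one₀ (Padic.norm_int_le_one y) (norm_nonneg _) htn
  have hα1 : ‖α‖ ≤ 1 := by
    rw [hα, norm_div, h2, div_one]
    exact (Padic.nonarchimedean _ _).trans (max_le hx1 hy1)
  have hβ1 : ‖β‖ ≤ 1 := by
    rw [hβ, norm_div, h2, div_one, sub_eq_add_neg]
    exact (Padic.nonarchimedean _ _).trans (max_le hx1 (by rwa [norm_neg]))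
  have hm0 : (m : ℚ_[3]) ≠ 0 := by exact_mod_cast hm.ne'
  have hα0 : α ≠ 0 := by
    intro h
    rw [h, zero_mul] at hmul
    exact absurd hmul.symm (mul_ne_zero (pow_ne_zero _ (by norm_num)) (pow_ne_zero _ hm0))
  have hv0 : v ≠ 0 := by
    intro h
    rw [h] at hv
    exact hα0 (by rw [← hv]; norm_num)
  have hβw : β = 3 ^ j * ((m : ℚ_[3]) / v) ^ 3 := by
    rw [div_pow, hv]
    field_simp
    linear_combination hmul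
  set w : ℚ_[3] := (m : ℚ_[3]) / v with hw
  have hv1 : ‖v‖ ≤ 1 := by
    have h1 : ‖v‖ ^ 3 ≤ 1 := by rw [← norm_pow, hv]; exact hα1
    exact (pow_le_one_iff_of_nonneg (norm_nonneg _) (by norm_num)).1 h1
  have hw1 : ‖w‖ ≤ 1 := by
    by_contra hcon
    push Not at hcon
    have hw0 : w ≠ 0 := by
      intro h
      rw [h, norm_zero] at hcon
      linarith
    obtain ⟨n, hn2⟩ : ∃ n : ℤ, ‖w‖ = ((3 : ℕ) : ℝ) ^ (-n) := ⟨_, Padic.norm_eq_zpow_neg_valuation hw0⟩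
    have h5 : (3 : ℝ) ≤ ‖w‖ := by
      rw [hn2] at hcon ⊢
      push_cast at hcon ⊢
      have hn3 : (1 : ℤ) ≤ -n := by
        by_contra h6
        push Not at h6
        have h7 : -n ≤ 0 := by omega
        have h8 : (3 : ℝ) ^ (-n) ≤ (3 : ℝ) ^ (0 : ℤ) := zpow_le_zpow_right₀ (by norm_num) h7
        rw [zpow_zero] at h8
        linarith
      calc (3 : ℝ) = (3 : ℝ) ^ (1 : ℤ) := by norm_num
        _ ≤ _ := zpow_le_zpow_right₀ (by norm_num) hn3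
    have h6 : ‖β‖ = ((3 : ℝ)⁻¹) ^ j * ‖w‖ ^ 3 := by
      rw [hβw, norm_mul, norm_pow, norm_pow, h3]
    have h7 : (3 : ℝ)⁻¹ ≤ ((3 : ℝ)⁻¹) ^ j := by
      calc (3 : ℝ)⁻¹ = (3 : ℝ)⁻¹ ^ 1 := by norm_num
        _ ≤ _ := pow_le_pow_of_le_one (by norm_num) (by norm_num) hj
    have h8 : (27 : ℝ) ≤ ‖w‖ ^ 3 := by
      calc (27 : ℝ) = 3 ^ 3 := by norm_num
        _ ≤ _ := pow_le_pow_left₀ (by norm_num) h5 3
    have h9 : (3 : ℝ)⁻¹ * 27 ≤ ‖β‖ := by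
      rw [h6]
      exact mul_le_mul h7 h8 (by norm_num) (by positivity)
    linarith
  obtain ⟨V, rfl⟩ : ∃ V : ℤ_[3], (V : ℚ_[3]) = v := ⟨⟨v, hv1⟩, rfl⟩
  obtain ⟨W, hW⟩ : ∃ V : ℤ_[3], (V : ℚ_[3]) = w := ⟨⟨w, hw1⟩, rfl⟩
  obtain ⟨T, rfl⟩ : ∃ V : ℤ_[3], (V : ℚ_[3]) = t := ⟨⟨t, htn⟩, rfl⟩
  -- the equations in `ℤ_3`
  have q1 : (x : ℤ_[3]) = V ^ 3 + 3 ^ j * W ^ 3 := by
    apply Subtype.ext
    change ((x : ℤ) : ℚ_[3]) = (V : ℚ_[3]) ^ 3 + 3 ^ j * (W : ℚ_[3]) ^ 3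
    rw [hW, ← hβw, hv, hα, hβ]
    ring
  have q2 : (y : ℤ_[3]) * T = V ^ 3 - 3 ^ j * W ^ 3 := by
    apply Subtype.ext
    change ((y : ℤ) : ℚ_[3]) * (T : ℚ_[3]) = (V : ℚ_[3]) ^ 3 - 3 ^ j * (W : ℚ_[3]) ^ 3
    rw [hW, ← hβw, hv, hα, hβ]
    ring
  have q3 : (m : ℤ_[3]) = V * W := by
    apply Subtype.ext
    change ((m : ℕ) : ℚ_[3]) = (V : ℚ_[3]) * (W : ℚ_[3])
    rw [hW, hw, mul_div_cancel₀ _ hv0]
  have q4 : T ^ 2 = -(D : ℤ_[3]) := by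
    apply Subtype.ext
    exact ht
  obtain ⟨a, ha, ha2⟩ := appr V
  obtain ⟨b, hb, hb2⟩ := appr W
  obtain ⟨c, hc, -⟩ := appr T
  have r1 := congrArg (PadicInt.toZModPow (p := 3) 3) q1
  have r2 := congrArg (PadicInt.toZModPow (p := 3) 3) q2
  have r3 := congrArg (PadicInt.toZModPow (p := 3) 3) q3
  have r4 := congrArg (PadicInt.toZModPow (p := 3) 3) q4
  simp only [map_intCast, map_natCast, map_add, map_mul, map_sub, map_pow, map_neg, ha, hb, hc,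
    map_ofNat] at r1 r2 r3 r4
  refine core j m x y a b c hj ?_ (dvd27 ?_) (dvd27 ?_) (dvd27 ?_) ?_
  · have h5 : (27 : ℤ) ∣ c ^ 2 + D := dvd27 (by push_cast; rw [r4]; ring)
    intro hc3
    obtain ⟨e, he⟩ : (3 : ℤ) ∣ c := Int.dvd_of_emod_eq_zero hc3
    obtain ⟨g, hg⟩ := h5
    have h6 : c ^ 2 = 3 * (3 * e ^ 2) := by rw [he]; ring
    omega
  · push_cast
    rw [r1]
    ring
  · push_cast
    rw [r2]
    ring
  · push_cast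
    rw [r3]
    ring
  · rintro ⟨h5, h6⟩
    apply hn
    constructor
    · rw [← hv, norm_pow]
      calc ‖(V : ℚ_[3])‖ ^ 3 ≤ (1 / 3) ^ 3 := pow_le_pow_left₀ (norm_nonneg _) (ha2 h5) 3
        _ = 1 / 27 := by norm_num
    · rw [hβw, norm_mul, norm_pow, norm_pow, h3, ← hW]
      calc (3 : ℝ)⁻¹ ^ j * ‖(W : ℚ_[3])‖ ^ 3 ≤ (3 : ℝ)⁻¹ ^ j * (1 / 3) ^ 3 :=
            mul_le_mul_of_nonneg_left (pow_le_pow_left₀ (norm_nonneg _) (hb2 h6) 3) (by positivity)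
        _ = 1 / 27 * (1 / 3) ^ j := by
            rw [one_div (3 : ℝ)]
            ring

end Pool.Agent.L7h37.SGP
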